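import Pool.Agent.W553.PM.StmB

/-! PMB-LIN (project of helper553, MP_ec5bc9_gt). -/

set_option autoImplicit false

namespace Pool.Agent.W925.PMB

open Set Filter Topology Pool.Agent.W553.PMB

theorem li2 (g : V ≃ₗ[ℝ] V) (x y : V) :
    LinearIndependent ℝ ![g x, g y] ↔ LinearIndependent ℝ ![x, y] := by
  have h : (![g x, g y] : Fin 2 → V) = g ∘ ![x, y] := by
    funext i; fin_cases i <;> rfl
  rw [h]
  exact LinearMap.linearIndependent_iff (g : V →ₗ[ℝ] V) (LinearEquiv.ker g)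

theorem li3 (g : V ≃ₗ[ℝ] V) (x y z : V) :
    LinearIndependent ℝ ![g x, g y, g z] ↔ LinearIndependent ℝ ![x, y, z] := by
  have h : (![g x, g y, g z] : Fin 3 → V) = g ∘ ![x, y, z] := by
    funext i; fin_cases i <;> rfl
  rw [h]
  exact LinearMap.linearIndependent_iff (g : V →ₗ[ℝ] V) (LinearEquiv.ker g)

theorem li3d (g : V ≃ₗ[ℝ] V) (u v w : V →ₗ[ℝ] ℝ) (h : LinearIndependent ℝ ![u, v, w]) :
    LinearIndependent ℝ ![u ∘ₗ (g : V →ₗ[ℝ] V), v ∘ₗ (g : V →ₗ[ℝ] V), w ∘ₗ (g : V →ₗ[ℝ] V)] := by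
  let G : (V →ₗ[ℝ] ℝ) →ₗ[ℝ] (V →ₗ[ℝ] ℝ) := LinearMap.lcomp ℝ ℝ (g : V →ₗ[ℝ] V)
  have hG : LinearMap.ker G = ⊥ := by
    rw [LinearMap.ker_eq_bot]
    intro a b hab
    ext x
    have := congrArg (fun f : V →ₗ[ℝ] ℝ => f (g.symm x)) hab
    simpa [G] using this
  have h2 : (![u ∘ₗ (g : V →ₗ[ℝ] V), v ∘ₗ (g : V →ₗ[ℝ] V), w ∘ₗ (g : V →ₗ[ℝ] V)] :
      Fin 3 → (V →ₗ[ℝ] ℝ)) = G ∘ ![u, v, w] := by
    funext i; fin_cases i <;> rfl
  rw [h2]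
  exact (LinearMap.linearIndependent_iff G hG).2 h

theorem T_lin : S_lin := by
  intro δ Λ H g
  have g0 : ∀ x : V, x ≠ 0 → g x ≠ 0 := fun x hx => by simpa using hx
  refine ⟨H.lam, ?_, ?_, ?_, ?_, ?_, ?_, ?_, ?_⟩
  · intro x y hx hy c hc
    simp only [map_smul]
    exact H.hom _ _ (g0 x hx) (g0 y hy) c hc
  · intro x y hx hy
    exact H.symm _ _ (g0 x hx) (g0 y hy)
  · intro x y hx hy
    rw [← li2 g x y]
    exact H.zero _ _ (g0 x hx) (g0 y hy)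
  · intro x y z hx hy hz
    exact H.tri _ _ _ (g0 x hx) (g0 y hy) (g0 z hz)
  · have hg : Continuous g := LinearMap.continuous_of_finiteDimensional (g : V →ₗ[ℝ] V)
    have h1 : Continuous (fun p : V × V => (g p.1, g p.2)) :=
      (hg.comp continuous_fst).prodMk (hg.comp continuous_snd)
    exact H.cont.comp h1.continuousOn (fun p hp => ⟨g0 _ hp.1, g0 _ hp.2⟩)
  · intro x y hxy
    obtain ⟨l, h1, h2, h3, h4, h5⟩ := H.line (g x) (g y) ((li2 g x y).2 hxy)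
    refine ⟨l, h1, h2, h3, h4, ?_⟩
    intro s hs t ht
    simp only [map_add, map_smul]
    exact h5 s hs t ht
  · intro x y z hxyz
    exact H.strict _ _ _ ((li3 g x y z).2 hxyz)
  · intro φ hφ F hFF
    let φ' : V →ₗ[ℝ] ℝ := φ ∘ₗ (g.symm : V →ₗ[ℝ] V)
    have e1 : ∀ x, φ' (g x) = φ x := fun x => by simp [φ']
    have hφ' : φ' ≠ 0 := by
      intro h
      apply hFF
      rw [← e1, h]; rfl
    obtain ⟨u, v, w, huvw, hX⟩ := H.conic φ' hφ' (g F) (by rwa [e1])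
    refine ⟨u ∘ₗ (g : V →ₗ[ℝ] V), v ∘ₗ (g : V →ₗ[ℝ] V), w ∘ₗ (g : V →ₗ[ℝ] V), li3d g u v w huvw, ?_⟩
    intro X hX0
    have h1 : hF (fun x y => δ (g x) (g y)) φ X = hF δ φ' (g X) := by
      unfold Pool.Agent.W553.PMB.hF
      congr 1
      ext r
      constructor
      · rintro ⟨Y, ⟨hY0, hY⟩, rfl⟩
        exact ⟨g Y, ⟨g0 Y hY0, by rw [e1, hY]⟩, rfl⟩
      · rintro ⟨Y, ⟨hY0, hY⟩, rfl⟩
        refine ⟨g.symm Y, ⟨by simpa using hY0, hY⟩, by simp⟩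
    rw [h1]
    exact hX (g X) (g0 X hX0)

end Pool.Agent.W925.PMB
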